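import Pool.Agent.X77.CC.Form

/-!
# Polygons of given knot types: the ratio of free plaquettes and bumps
-/

set_option autoImplicit false

namespace Pool.Agent.Results.MP_aea6d5_co.LocalRatio

open Filter Topology KN KN.KQ X77.CC

/-- Let `Q` be a class of knot types (for instance one knot type), `g = gr Q` its growth rate,
`r k = p (2 k + 2) / p (2 k)` the ratios of its counts, and `X w` the number of free plaquettes of
`w` divided by the number of its bumps (cut at `10 ^ 8`). Consider the means over the closed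
self-avoiding words of length `2 k` in `Q`.

* If `p (2 k)` is at least `((1 - δ) g) ^ (2 k)`, then the mean of `X` is `r k + O(1 / k)`, and the
  mean of `(X - x) ^ 2` is `(x - r k) ^ 2 + r k (r (k + 1) - r k) + O(1 / k)`.
* For every `ε` there is `δ` such that the mean of `(X - g ^ 2) ^ 2` is at most `ε` at all these
  lengths, and there are infinitely many of them.
* If `Q` is closed under connected sums, or `g` is the growth rate of the unknot, then the mean of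
  `X` tends to `g ^ 2`, the mean of `(X - g ^ 2) ^ 2` tends to `0`, and the sum of the means of
  `(X - r i) ^ 2` over `j ≤ i < k` is at most `ε + D (k - j) / j` for large `j ≤ k`.
* Rates for classes closed under connected sums, for classes with counts of polynomial order
  relative to `g ^ n`, and for classes for which the asymptotic form holds. -/
theorem result (Q : List Dir → Prop) (hQ : KClass Q) (hne : ∃ w, SAP w ∧ Q w) :
    (∃ C δ : ℝ, 0 < δ ∧ δ < 1 ∧ ∀ᶠ k : ℕ in atTop,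
      ((1 - δ) * gr Q) ^ (2 * k) ≤ pq Q (2 * k) →
      |mean Q (2 * k) X - rt Q k| ≤ C / k ∧
      ∀ x : ℝ, 0 ≤ x → x ≤ 30 → |mean Q (2 * k) (fun w => (X w - x) ^ 2) -
        ((x - rt Q k) ^ 2 + rt Q k * (rt Q (k + 1) - rt Q k))| ≤ C / k) ∧
    (∀ ε : ℝ, 0 < ε → ∃ δ : ℝ, 0 < δ ∧ δ < 1 ∧ ∀ᶠ k : ℕ in atTop,
      ((1 - δ) * gr Q) ^ (2 * k) ≤ pq Q (2 * k) →
      mean Q (2 * k) (fun w => (X w - gr Q ^ 2) ^ 2) ≤ ε) ∧
    (∀ δ : ℝ, 0 < δ → δ < 1 → ∃ᶠ k : ℕ in atTop,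
      ((1 - δ) * gr Q) ^ (2 * k) ≤ pq Q (2 * k)) ∧
    (CSum Q ∨ gr Q = gr U →
      Tendsto (fun k : ℕ => mean Q (2 * k) X) atTop (𝓝 (gr Q ^ 2)) ∧
      Tendsto (fun k : ℕ => mean Q (2 * k) (fun w => (X w - gr Q ^ 2) ^ 2)) atTop (𝓝 0) ∧
      ∃ D : ℝ, ∀ ε : ℝ, 0 < ε → ∃ N : ℕ, ∀ j k : ℕ, N ≤ j → j ≤ k →
        ∑ i ∈ Finset.Ico j k, mean Q (2 * i) (fun w => (X w - rt Q i) ^ 2) ≤
          ε + D * ((k : ℝ) - j) / j) ∧
    (CSum Q → ∃ R : ℝ, ∀ᶠ k : ℕ in atTop,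
      mean Q (2 * k) (fun w => (X w - gr Q ^ 2) ^ 2) ≤
        R * √((1 + |Real.log ((k : ℝ) ^ (2 / 3 : ℝ) *
          (pq Q (2 * k) / gr Q ^ (2 * k)))|) / k)) ∧
    (∀ α c₁ c₂ : ℝ, 0 < c₁ → (∀ᶠ k : ℕ in atTop,
      c₁ ≤ pq Q (2 * k) / ((2 * k : ℝ) ^ (α - 3) * gr Q ^ (2 * k)) ∧
      pq Q (2 * k) / ((2 * k : ℝ) ^ (α - 3) * gr Q ^ (2 * k)) ≤ c₂) →
      ∃ R : ℝ, ∀ᶠ k : ℕ in atTop, |mean Q (2 * k) X - gr Q ^ 2| ≤ R / √k ∧
        mean Q (2 * k) (fun w => (X w - gr Q ^ 2) ^ 2) ≤ R / √k) ∧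
    (∀ A α : ℝ, 0 < A → Tendsto (fun k : ℕ =>
      pq Q (2 * k) / ((2 * k : ℝ) ^ (α - 3) * gr Q ^ (2 * k))) atTop (𝓝 A) →
      Tendsto (fun k : ℕ => √(k : ℝ) * (mean Q (2 * k) X - gr Q ^ 2)) atTop (𝓝 0) ∧
      Tendsto (fun k : ℕ => √(k : ℝ) * mean Q (2 * k) (fun w => (X w - gr Q ^ 2) ^ 2)) atTop
        (𝓝 0)) ∧
    KClass U ∧ CSum U ∧ ∀ k : List V, KClass (KT k) := by
  refine ⟨?_, fun ε hε => conc hQ hne hε, fun δ h1 h2 => freq hQ hne h1 h2, fun h => ?_,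
    sum_rate hQ hne, fun α c₁ c₂ hc h => bounds_conc hQ hne hc h,
    fun A α hA h => form_conc hQ hne hA h, GEN.kt_class sq, GEN.u_csum, GEN.kt_class⟩
  · obtain ⟨δ, h1, h2, h3⟩ := dev_all hQ hne
    refine ⟨10 ^ 17, δ, h1, h2, ?_⟩
    filter_upwards [h3] with k hk hbig
    obtain ⟨a1, a2, -, -⟩ := hk hbig
    exact ⟨a1, a2⟩
  · refine root_conc hQ hne ?_
    rcases h with h | h
    · exact ⟨_, (class_sum Q hQ hne h).1⟩
    · exact X77.RR.root_of_eq hQ hne h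

end Pool.Agent.Results.MP_aea6d5_co.LocalRatio
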