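import Pool.Agent.X77.KL.Fin

/-!
# Classes of knots closed under connected sums: almost all polygons have at least `ε n ^ (2 / 3)`
summands of a given type
-/

set_option autoImplicit false

namespace Pool.Agent.Results.MP_aea6d5_co.ManySummands

open Filter Topology KN KN.KQ X77.KL

/-- Let `Q` be a class of knot types that is closed under connected sums and `L` a knot of the
class (the one of the polygon `wL`).

* For some `ε > 0` and all large `n`, at most `exp (-ε n ^ (2 / 3)) * gr Q ^ n` polygons of length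
  `n` of the class are not a connected sum of a polygon and `m` polygons of type `L`, for all
  `m ≤ ε n ^ (2 / 3)`.
* Let the group of `L` have a homomorphism to a finite group with non-cyclic image. Then for every
  knot type `K` of the class (the one of `w₀`) the number of polygons of length `n` of type `K` is
  at most `exp (-ε n ^ (2 / 3)) * gr Q ^ n` for all large `n`. If for every `ε > 0` it is at least
  `exp (-ε n ^ (2 / 3)) * gr K ^ n` for infinitely many `n`, then the growth rate of `K` is smaller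
  than the one of `Q`. In particular this follows from the asymptotic form for `K`.
* There is a smallest class that contains `K` and `L` and is closed under connected sums.
* Let `l` be a connected sum of `K` and `N` copies of `L`. For `N ≤ c n ^ (2 / 3)` and large `n` the
  number of polygons of length `n + b N` of type `l` is at least `c (c n ^ (2 / 3) / (N + 1)) ^ N`
  times the number of polygons of length `n` of type `K`. -/
theorem result :
    (∀ Q : List Dir → Prop, KClass Q → CSum Q → ∀ wL : List Dir, SAP wL → Q wL →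
      (∃ ε : ℝ, 0 < ε ∧ ∀ᶠ n : ℕ in atTop, ∀ m : ℕ, (m : ℝ) ≤ ε * (n : ℝ) ^ (2 / 3 : ℝ) →
        pq (fun w => Q w ∧ ¬ Has wL m w) n ≤
          Real.exp (-(ε * (n : ℝ) ^ (2 / 3 : ℝ))) * gr Q ^ n) ∧
      (FNAG (vl wL) → ∀ w₀ : List Dir, SAP w₀ → Q w₀ →
        (∃ ε : ℝ, 0 < ε ∧ ∀ᶠ n : ℕ in atTop, pq (KT (vl w₀)) n ≤
          Real.exp (-(ε * (n : ℝ) ^ (2 / 3 : ℝ))) * gr Q ^ n) ∧
        ((∀ ε : ℝ, 0 < ε → ∃ᶠ n : ℕ in atTop,
          Real.exp (-(ε * (n : ℝ) ^ (2 / 3 : ℝ))) * gr (KT (vl w₀)) ^ n ≤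
            pq (KT (vl w₀)) n) → gr (KT (vl w₀)) < gr Q) ∧
        ∀ A α : ℝ, 0 < A → Tendsto (fun j : ℕ => pq (KT (vl w₀)) (2 * j) /
          ((2 * j : ℝ) ^ (α - 3) * gr (KT (vl w₀)) ^ (2 * j))) atTop (𝓝 A) →
          gr (KT (vl w₀)) < gr Q)) ∧
    (∀ w₀ wL : List Dir, KClass (Gen w₀ wL) ∧ CSum (Gen w₀ wL) ∧ Gen w₀ wL w₀ ∧ Gen w₀ wL wL ∧
      ∀ Q : List Dir → Prop, KClass Q → CSum Q → Q w₀ → Q wL → ∀ w, Gen w₀ wL w → Q w) ∧
    (∀ w₀ wL : List Dir, SAP w₀ → SAP wL → FNAG (vl wL) →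
      ∃ (c : ℝ) (b n0 : ℕ), 0 < c ∧ b % 2 = 0 ∧ ∀ n N : ℕ, n0 ≤ n →
        (N : ℝ) ≤ c * (n : ℝ) ^ (2 / 3 : ℝ) → ∀ l : List V,
        SumsC (Ty (vl w₀)) (fun _ => vl wL) N l →
        c * (c * (n : ℝ) ^ (2 / 3 : ℝ) / (N + 1)) ^ N * pq (KT (vl w₀)) n ≤
          pq (KT l) (n + b * N)) ∧
    ∃ w, SAP w ∧ FNAG (vl w) := by
  refine ⟨fun Q hQ hc wL hL hLQ => ⟨?_, fun hF w₀ h₀ hQ₀ =>
    ⟨single hQ hc h₀ hQ₀ hL hLQ hF, strict hQ hc h₀ hQ₀ hL hLQ hF, fun A α hA h => ?_⟩⟩,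
    fun w₀ wL => ⟨gen_class w₀ wL, gen_sum w₀ wL, fun _ _ _ h _ => h, fun _ _ _ _ h => h,
      fun Q hQ hc h1 h2 w hw => hw Q hQ hc h1 h2⟩,
    fun w₀ wL h₀ hL hF => low h₀ hL hF, ⟨_, fnag_tre⟩⟩
  · obtain ⟨ε, n0, hε, h⟩ := stretched hQ hc hL hLQ
    refine ⟨ε, hε, ?_⟩
    filter_upwards [eventually_ge_atTop n0, eventually_ge_atTop 1] with n h1 h2 m hm
    refine le_trans ?_ (h n m h1 hm)
    unfold pq
    refine div_le_self (Nat.cast_nonneg _) ?_
    have : (1 : ℝ) ≤ n := by exact_mod_cast h2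
    linarith
  · have hg : 0 < gr (KT (vl w₀)) := by
      have := (gr_bounds _ (GEN.kt_class (vl w₀)) ⟨w₀, h₀, Or.inl (Same.refl _)⟩).1
      linarith
    exact strict hQ hc h₀ hQ₀ hL hLQ hF (fun ε hε => weak_of_form hg hA h ε hε)

end Pool.Agent.Results.MP_aea6d5_co.ManySummands
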