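import Pool.Agent.X77.RR.Form

/-!
# Rates of convergence for the ratios of consecutive numbers of polygons of given knot types
-/

set_option autoImplicit false

namespace Pool.Agent.Results.MP_aea6d5_co.RatioRates

open Filter Topology KN KN.KQ X77.RR

/-- Let `Q` be a class of knot types (for instance one knot type), and `y k` the number of polygons
of length `2 k` divided by `gr Q ^ (2 k)`.

* Local rate: if `y k` is not exponentially small and `y i ≤ exp E * y k` for `k / 2 ≤ i ≤ 2 k`,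
  then the ratio differs from `gr Q ^ 2` by at most `R √(E / k)`.
* If `Q` is closed under connected sums the difference is at most
  `R √((1 + |log (k ^ (2 / 3) * y k)|) / k)`.
* If `Q` is closed under connected sums, or its growth rate is the one of the unknot, then the
  roots of the counts converge.
* If the roots converge, then the ratios converge, and the sum of
  `|log (p (2 i + 2) ^ 2 / (p (2 i) * p (2 i + 4)))|` over `j ≤ i < k` is at most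
  `ε + D (k - j) / j` for large `j ≤ k`.
* If the counts are between two multiples of `n ^ (α - 3) * gr Q ^ n`, then the difference is
  `O(1 / √n)`. If the asymptotic form holds, it is `o(1 / √n)`. -/
theorem result (Q : List Dir → Prop) (hQ : KClass Q) (hne : ∃ w, SAP w ∧ Q w) :
    (∃ R δ : ℝ, 0 < δ ∧ ∀ᶠ k : ℕ in atTop, ∀ E : ℝ, 1 ≤ E → E ≤ δ * k →
      Real.exp (-(δ * k)) ≤ pq Q (2 * k) / gr Q ^ (2 * k) →
      (∀ i : ℕ, k ≤ 2 * i → i ≤ 2 * k → pq Q (2 * i) / gr Q ^ (2 * i) ≤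
        Real.exp E * (pq Q (2 * k) / gr Q ^ (2 * k))) →
      |pq Q (2 * k + 2) / pq Q (2 * k) - gr Q ^ 2| ≤ R * √(E / k)) ∧
    (CSum Q → ∃ R : ℝ, ∀ᶠ k : ℕ in atTop,
      |pq Q (2 * k + 2) / pq Q (2 * k) - gr Q ^ 2| ≤
        R * √((1 + |Real.log ((k : ℝ) ^ (2 / 3 : ℝ) *
          (pq Q (2 * k) / gr Q ^ (2 * k)))|) / k)) ∧
    (CSum Q ∨ gr Q = gr U →
      ∃ L : ℝ, Tendsto (fun k : ℕ => (pq Q (2 * k)) ^ (1 / (2 * k : ℝ))) atTop (𝓝 L)) ∧
    ((∃ L : ℝ, Tendsto (fun k : ℕ => (pq Q (2 * k)) ^ (1 / (2 * k : ℝ))) atTop (𝓝 L)) →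
      Tendsto (fun k : ℕ => pq Q (2 * k + 2) / pq Q (2 * k)) atTop (𝓝 (gr Q ^ 2)) ∧
      ∃ D : ℝ, ∀ ε : ℝ, 0 < ε → ∃ N : ℕ, ∀ j k : ℕ, N ≤ j → j ≤ k →
        ∑ i ∈ Finset.Ico j k, |Real.log (pq Q (2 * i + 2) ^ 2 / (pq Q (2 * i) *
          pq Q (2 * i + 4)))| ≤ ε + D * ((k : ℝ) - j) / j) ∧
    (∀ α c₁ c₂ : ℝ, 0 < c₁ → (∀ᶠ k : ℕ in atTop,
      c₁ ≤ pq Q (2 * k) / ((2 * k : ℝ) ^ (α - 3) * gr Q ^ (2 * k)) ∧
      pq Q (2 * k) / ((2 * k : ℝ) ^ (α - 3) * gr Q ^ (2 * k)) ≤ c₂) →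
      ∃ R : ℝ, ∀ᶠ k : ℕ in atTop,
        |pq Q (2 * k + 2) / pq Q (2 * k) - gr Q ^ 2| ≤ R / √k) ∧
    (∀ A α : ℝ, 0 < A → Tendsto (fun k : ℕ =>
      pq Q (2 * k) / ((2 * k : ℝ) ^ (α - 3) * gr Q ^ (2 * k))) atTop (𝓝 A) →
      Tendsto (fun k : ℕ => √(k : ℝ) * (pq Q (2 * k + 2) / pq Q (2 * k) - gr Q ^ 2)) atTop
        (𝓝 0)) ∧
    KClass U ∧ CSum U ∧ ∀ k : List V, KClass (KT k) := by
  refine ⟨?_, class_rate hQ hne, fun h => ?_, root_all hQ hne,
    fun α c₁ c₂ hc h => bounds_rate hQ hne hc h, fun A α hA h => form_rate hQ hne hA h,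
    GEN.kt_class sq, GEN.u_csum, GEN.kt_class⟩
  · obtain ⟨R, δ, N, -, hδ, h⟩ := class_local hQ hne
    refine ⟨R, δ, hδ, ?_⟩
    filter_upwards [eventually_ge_atTop N] with k hk E h1 h2 h3 h4
    exact h k hk E h1 h2 h3 h4
  · rcases h with h | h
    · exact ⟨_, (class_sum Q hQ hne h).1⟩
    · exact root_of_eq hQ hne h

end Pool.Agent.Results.MP_aea6d5_co.RatioRates
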