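import Pool.Agent.X77.RR.Form
import Pool.Agent.X204.KG
import Pool.Agent.X204.DBE

/-!
The asymptotic form of the number of lattice knots and the doubling of the length.
-/

set_option autoImplicit false

namespace Pool.Agent.Results.MP_aea6d5_co.UnknotDoubling

open Filter Topology KN KN.KQ X77.RR TH966.KS

/-- the gaps of the set `S` are `o(√k)` -/
def SmallGaps (S : Set ℕ) : Prop :=
  ∀ δ : ℝ, 0 < δ → ∀ᶠ k : ℕ in atTop, ∃ m ∈ S, k ≤ m ∧ (m : ℝ) ≤ k + δ * √k

/-- the gaps of the set `S` are `o(√(k log k))` -/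
def LogGaps (S : Set ℕ) : Prop :=
  ∀ δ : ℝ, 0 < δ → ∀ᶠ k : ℕ in atTop, ∃ m ∈ S, k ≤ m ∧ (m : ℝ) ≤ k + δ * √(k * Real.log k)

/-- the number of polygons of length `n = 2 k` divided by `n^(α - 3) μ^n` -/
noncomputable def q (Q : List Dir → Prop) (α : ℝ) (k : ℕ) : ℝ :=
  pq Q (2 * k) / ((2 * k : ℝ) ^ (α - 3) * gr Q ^ (2 * k))

/-- the ratio `p_{2n} / p_n²` for `n = 2 k` -/
noncomputable def R (Q : List Dir → Prop) (k : ℕ) : ℝ := pq Q (2 * (2 * k)) / pq Q (2 * k) ^ 2

/-- Let `Q` be a class of knot types (for instance one knot type) that is closed under connected sums,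
or has the growth rate of the unknot, or whose roots `p_n^(1/n)` converge, and let `S` be a set of
natural numbers with `2 k ∈ S` for `k ∈ S`.

* For `A > 0` the asymptotic form `p_n / (n^(α-3) μ^n) → A` holds along the lengths `n = 2 k`, `k ∈ S`,
  if and only if `(p_{2n} / p_n²) n^(α-3) → 2^(α-3) / A` along these lengths. If moreover the gaps of
  `S` are `o(√k)`, then the asymptotic form holds along all even `n` if and only if
  `(p_{2n} / p_n²) n^(α-3) → 2^(α-3) / A` along the lengths `n = 2 k`, `k ∈ S`.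
* `log (p_n / μ^n) / log n → β` along the lengths `n = 2 k`, `k ∈ S`, if and only if
  `log (p_{2n} / p_n²) / log n → -β` along these lengths. If moreover the gaps of `S` are
  `o(√(k log k))`, then the former holds along all even `n` if and only if the latter holds along the
  lengths `n = 2 k`, `k ∈ S`.

The unknot is such a class. -/
theorem result (Q : List Dir → Prop) (hQ : KClass Q) (hne : ∃ w, SAP w ∧ Q w)
    (hroot : CSum Q ∨ gr Q = gr U ∨
      ∃ L : ℝ, Tendsto (fun k : ℕ => (pq Q (2 * k)) ^ (1 / (2 * k : ℝ))) atTop (𝓝 L))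
    (S : Set ℕ) (hd : ∀ k ∈ S, 2 * k ∈ S) :
    (∀ A α : ℝ, 0 < A →
      (Tendsto (q Q α) (atTop ⊓ 𝓟 S) (𝓝 A) ↔
        Tendsto (fun k : ℕ => R Q k * (2 * k : ℝ) ^ (α - 3)) (atTop ⊓ 𝓟 S)
          (𝓝 (2 ^ (α - 3) / A))) ∧
      (SmallGaps S →
        (Tendsto (q Q α) atTop (𝓝 A) ↔
          Tendsto (fun k : ℕ => R Q k * (2 * k : ℝ) ^ (α - 3)) (atTop ⊓ 𝓟 S)
            (𝓝 (2 ^ (α - 3) / A))))) ∧
    (∀ β : ℝ,
      (Tendsto (fun k : ℕ => Real.log (pq Q (2 * k) / gr Q ^ (2 * k)) / Real.log (2 * k))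
          (atTop ⊓ 𝓟 S) (𝓝 β) ↔
        Tendsto (fun k : ℕ => Real.log (R Q k) / Real.log (2 * k)) (atTop ⊓ 𝓟 S) (𝓝 (-β))) ∧
      (LogGaps S →
        (Tendsto (fun k : ℕ => Real.log (pq Q (2 * k) / gr Q ^ (2 * k)) / Real.log (2 * k))
            atTop (𝓝 β) ↔
          Tendsto (fun k : ℕ => Real.log (R Q k) / Real.log (2 * k)) (atTop ⊓ 𝓟 S)
            (𝓝 (-β))))) ∧
    KClass U ∧ CSum U ∧ ∀ k : List V, KClass (KT k) := by
  obtain ⟨g1, -, -⟩ := gr_bounds Q hQ hne
  have hg : 0 < gr Q := by linarith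
  have hg2 : 0 < gr Q ^ 2 := by positivity
  have hL : ∃ L : ℝ, Tendsto (fun k : ℕ => (pq Q (2 * k)) ^ (1 / (2 * k : ℝ))) atTop (𝓝 L) := by
    rcases hroot with h | h | h
    · exact ⟨_, (class_sum Q hQ hne h).1⟩
    · exact root_of_eq hQ hne h
    · exact h
  have hrat : Tendsto (fun j : ℕ => pq Q (2 * j + 2) / pq Q (2 * j)) atTop (𝓝 (gr Q ^ 2)) :=
    (root_all hQ hne hL).1
  obtain ⟨c, hc⟩ : ∃ c : ℕ → ℝ, c = fun k => pq Q (2 * k) := ⟨_, rfl⟩
  have hcpos : ∀ᶠ k : ℕ in atTop, 0 < c k := by rw [hc]; exact class_pos Q hQ hne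
  have hsub : Tendsto (fun n : ℕ => Real.log (c n / (gr Q ^ 2) ^ n) / n) atTop (𝓝 0) := by
    refine Pool.Agent.X204.DBE.sub_of_ratio hg2 hcpos ?_
    rw [hc]
    exact hrat
  have hy : ∀ k : ℕ, yq Q k = c k / (gr Q ^ 2) ^ k := fun k => by
    rw [hc, ← pow_mul]
    rfl
  obtain ⟨D, θ, k0, hD, hθ0, hθ1, hK⟩ := kes_yq Q hQ hne
  have hyn : ∀ k, 0 ≤ yq Q k := yq_nonneg Q hg.le
  have hyp : ∀ᶠ k : ℕ in atTop, 0 < yq Q k := by
    filter_upwards [hcpos] with k hk
    rw [hy]
    positivity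
  have hRe : ∀ k : ℕ, R Q k = c (2 * k) / c k ^ 2 := fun k => by rw [hc]; rfl
  refine ⟨fun A α hA => ?_, fun β => ?_, GEN.kt_class sq, GEN.u_csum, GEN.kt_class⟩
  · have hp2 : 0 < (2 : ℝ) ^ (α - 3) := Real.rpow_pos_of_pos (by norm_num) _
    have hqe : ∀ k : ℕ, q Q α k = c k / ((gr Q ^ 2) ^ k * (k : ℝ) ^ (α - 3)) / 2 ^ (α - 3) := by
      intro k
      unfold q
      rw [hc, Real.mul_rpow (by norm_num) (Nat.cast_nonneg k), ← pow_mul, div_div]
      congr 1
      ring
    have hq1 : ∀ l : Filter ℕ, Tendsto (q Q α) l (𝓝 A) ↔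
        Tendsto (fun k : ℕ => c k / ((gr Q ^ 2) ^ k * (k : ℝ) ^ (α - 3))) l
          (𝓝 (A * 2 ^ (α - 3))) := by
      intro l
      constructor
      · intro h
        have h1 := h.mul_const ((2 : ℝ) ^ (α - 3))
        refine h1.congr fun k => ?_
        rw [hqe]
        field_simp
      · intro h
        have h1 := h.div_const ((2 : ℝ) ^ (α - 3))
        rw [mul_div_assoc, div_self hp2.ne', mul_one] at h1
        refine h1.congr fun k => ?_
        rw [hqe]
    have hiff : Tendsto (q Q α) (atTop ⊓ 𝓟 S) (𝓝 A) ↔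
        Tendsto (fun k : ℕ => R Q k * (2 * k : ℝ) ^ (α - 3)) (atTop ⊓ 𝓟 S)
          (𝓝 (2 ^ (α - 3) / A)) := by
      rw [hq1, Pool.Agent.X204.DBE.double_iff hg2 hcpos hsub S hd (α - 3) _ (mul_pos hA hp2)]
      have e1 : (2 : ℝ) ^ (α - 3) / (A * 2 ^ (α - 3)) = 1 / A := by
        have := hA.ne'
        field_simp
      rw [e1]
      have e2 : ∀ k : ℕ, R Q k * (2 * k : ℝ) ^ (α - 3) =
          c (2 * k) / c k ^ 2 * (k : ℝ) ^ (α - 3) * 2 ^ (α - 3) := by
        intro k
        rw [hRe, Real.mul_rpow (by norm_num) (Nat.cast_nonneg k)]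
        ring
      constructor
      · intro h
        have h1 := h.mul_const ((2 : ℝ) ^ (α - 3))
        rw [one_div_mul_eq_div] at h1
        exact h1.congr fun k => (e2 k).symm
      · intro h
        have h1 := h.div_const ((2 : ℝ) ^ (α - 3))
        rw [div_right_comm, div_self hp2.ne'] at h1
        refine h1.congr fun k => ?_
        rw [e2, mul_div_assoc, div_self hp2.ne', mul_one]
    refine ⟨hiff, fun hS => ⟨fun h => hiff.1 (h.mono_left inf_le_left), fun h => ?_⟩⟩
    have h1 := (hq1 _).1 (hiff.2 h)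
    rw [hq1]
    have e3 : ∀ k : ℕ, c k / ((gr Q ^ 2) ^ k * (k : ℝ) ^ (α - 3)) = yq Q k / (k : ℝ) ^ (α - 3) :=
      fun k => by rw [hy, div_div]
    simp only [e3] at h1 ⊢
    exact Pool.Agent.X204.KG.form hθ0 hθ1 hK hyn hD hyp S hS _ (α - 3) (mul_pos hA hp2) h1
  · -- the logarithmic form: `log (2 k)` and `log k`
    have hl2 : Tendsto (fun k : ℕ => Real.log (k : ℝ) / Real.log (2 * k)) atTop (𝓝 1) := by
      have h3 : Tendsto (fun n : ℕ => Real.log 2 / Real.log (n : ℝ)) atTop (𝓝 0) :=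
        (tendsto_const_nhds).div_atTop (Real.tendsto_log_atTop.comp tendsto_natCast_atTop_atTop)
      have h4 := (h3.add_const 1).inv₀ (by norm_num)
      rw [zero_add, inv_one] at h4
      refine h4.congr' ?_
      filter_upwards [eventually_gt_atTop 1] with n hn
      have hn1 : (1 : ℝ) < n := by exact_mod_cast hn
      have hln : 0 < Real.log (n : ℝ) := Real.log_pos hn1
      have hl20 : 0 < Real.log 2 := Real.log_pos (by norm_num)
      rw [Real.log_mul (by norm_num) (by positivity)]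
      field_simp
    have hl3 : Tendsto (fun k : ℕ => Real.log (2 * k) / Real.log (k : ℝ)) atTop (𝓝 1) := by
      have h4 := hl2.inv₀ one_ne_zero
      rw [inv_one] at h4
      exact h4.congr fun k => by rw [inv_div]
    have hch : ∀ (f : ℕ → ℝ) (b : ℝ) (l : Filter ℕ), l ≤ atTop →
        (Tendsto (fun k : ℕ => f k / Real.log (2 * k)) l (𝓝 b) ↔
          Tendsto (fun k : ℕ => f k / Real.log (k : ℝ)) l (𝓝 b)) := by
      intro f b l hl
      have hpos : ∀ᶠ k : ℕ in l, 0 < Real.log (k : ℝ) ∧ 0 < Real.log (2 * k : ℝ) := by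
        refine Filter.Eventually.filter_mono hl ?_
        filter_upwards [eventually_gt_atTop 1] with n hn
        have hn1 : (1 : ℝ) < n := by exact_mod_cast hn
        exact ⟨Real.log_pos hn1, Real.log_pos (by linarith)⟩
      constructor
      · intro h
        have h1 := h.mul (hl3.mono_left hl)
        rw [mul_one] at h1
        refine h1.congr' ?_
        filter_upwards [hpos] with k hk
        have := hk.1.ne'
        have := hk.2.ne'
        field_simp
      · intro h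
        have h1 := h.mul (hl2.mono_left hl)
        rw [mul_one] at h1
        refine h1.congr' ?_
        filter_upwards [hpos] with k hk
        have := hk.1.ne'
        have := hk.2.ne'
        field_simp
    have e1 : ∀ k : ℕ, pq Q (2 * k) / gr Q ^ (2 * k) = yq Q k := fun k => rfl
    have hiff : Tendsto (fun k : ℕ => Real.log (pq Q (2 * k) / gr Q ^ (2 * k)) / Real.log (2 * k))
          (atTop ⊓ 𝓟 S) (𝓝 β) ↔
        Tendsto (fun k : ℕ => Real.log (R Q k) / Real.log (2 * k)) (atTop ⊓ 𝓟 S) (𝓝 (-β)) := by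
      rw [hch (fun k => Real.log (pq Q (2 * k) / gr Q ^ (2 * k))) β _ inf_le_left,
        hch (fun k => Real.log (R Q k)) (-β) _ inf_le_left]
      simp only [e1, hy, hRe]
      exact ⟨fun h => Pool.Agent.X204.DBE.conv_log hg2 hcpos S hd β h,
        fun h => Pool.Agent.X204.DBE.along_log hg2 hcpos hsub S hd β h⟩
    refine ⟨hiff, fun hS => ⟨fun h => hiff.1 (h.mono_left inf_le_left), fun h => ?_⟩⟩
    have h1 := hiff.2 h
    rw [hch (fun k => Real.log (pq Q (2 * k) / gr Q ^ (2 * k))) β _ inf_le_left] at h1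
    rw [hch (fun k => Real.log (pq Q (2 * k) / gr Q ^ (2 * k))) β _ le_rfl]
    simp only [e1] at h1 ⊢
    exact Pool.Agent.X204.KG.expo hθ0 hθ1 hK hyn hD hyp S hS β h1

end Pool.Agent.Results.MP_aea6d5_co.UnknotDoubling
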